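import Mathlib
import Pool.Agent.H.MP_c027d2_an.A

namespace Pool.Agent.Results.MP_c027d2_an.P2

open Complex Metric Set Filter MeasureTheory

/-- Euclidean `ℂ^n`. -/
abbrev E (n : ℕ) := EuclideanSpace ℂ (Fin n)

/-- The class `N_A`. -/
def N {n : ℕ} (A : E n →L[ℂ] E n) : Set (E n → E n) :=
  {h | DifferentiableOn ℂ h (ball 0 1) ∧ h 0 = 0 ∧ fderiv ℂ h 0 = A ∧
    ∀ z ∈ ball (0 : E n) 1, z ≠ 0 → 0 < (inner ℂ z (h z)).re}

/-- The reachable family `R_T(A)`. -/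
def Reach {n : ℕ} (A : E n →L[ℂ] E n) (T : ℝ) : Set (E n → E n) :=
  {f | DifferentiableOn ℂ f (ball 0 1) ∧ f 0 = 0 ∧ fderiv ℂ f 0 = ContinuousLinearMap.id ℂ _ ∧
    ∃ (h : ℝ → E n → E n) (v : E n → ℝ → E n), (∀ t ∈ Icc 0 T, h t ∈ N A) ∧
      (∀ z ∈ ball (0 : E n) 1, AEStronglyMeasurable (fun t => h t z) (volume.restrict (Icc 0 T))) ∧
      ∀ z ∈ ball (0 : E n) 1, v z 0 = z ∧ (∀ t ∈ Icc 0 T, v z t ∈ ball (0 : E n) 1) ∧
        (∃ K, LipschitzOnWith K (v z) (Icc 0 T)) ∧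
        (∀ᵐ t : ℝ, t ∈ Icc 0 T → HasDerivAt (v z) (-h t (v z t)) t) ∧
        f z = NormedSpace.exp ((T : ℂ) • A) (v z T)}

/-- The homogeneous term of degree `m` of `f` at `z`: the `t ^ m` coefficient of `t ↦ f (t z)`. -/
noncomputable def P {n : ℕ} (f : E n → E n) (m : ℕ) (z : E n) : E n :=
  (m.factorial : ℂ)⁻¹ • iteratedDeriv m (fun t : ℂ => f (t • z)) 0

/-- The shearing constant `a_0`. -/
noncomputable def a0 (κ μ : ℝ) : ℝ :=
  sSup {a | ∀ x y : ℝ, 0 ≤ x → 0 ≤ y → x ^ 2 + y ^ 2 ≤ 1 → 0 ≤ κ * x ^ 2 + μ * y ^ 2 - a * x * y ^ 2}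

open Pool.Agent.H.MP_b9b9c0_an Pool.Agent.H.MP_c027d2_an Topology

theorem result (n : ℕ) (A : E n →L[ℂ] E n) (b : OrthonormalBasis (Fin n) ℂ (E n)) (l : Fin n → ℂ)
    (hA : ∀ k, A (b k) = l k • b k) (i j : Fin n) (ij : i ≠ j) (hi : ∀ k, (l k).re ≤ (l i).re)
    (hj : ∀ k, (l j).re ≤ (l k).re) (h2 : (l i).re < 2 * (l j).re) (M : ℝ) (hM : 1 < M)
    (H : (l i).re = (l j).re ∨ 3 / 2 ≤ (l j).re * Real.log M) :
    IsGreatest {x : ℝ | ∃ f ∈ Reach A (Real.log M), ∃ z : E n, ‖z‖ = 1 ∧ x = ‖P f 2 z‖}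
      (a0 (l i).re (l j).re / (2 * (l j).re - (l i).re) * (1 - M ^ ((l i).re - 2 * (l j).re))) := by
  have T0 := Real.log_pos hM
  rw [Real.rpow_def_of_pos (by linarith), show Real.log M * _ = -((2 * (l j).re - (l i).re) *
    Real.log M) by ring]
  generalize Real.log M = T at *
  have mk := hj i
  have μ0 : 0 < (l j).re := by linarith
  have σ0 := sub_pos.2 h2
  obtain ⟨he', hμ, hκ, ha⟩ := bas b hA ij (a := a0 (l i).re (l j).re) μ0 hi hj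
  generalize hk : (l i).re = κ at *
  generalize hm : (l j).re = μ at *
  have κ0 : 0 < κ := by linarith
  have θ0 : 0 < 1 - Real.exp (-((2 * μ - κ) * T)) := by simpa using mul_pos σ0 T0
  obtain ⟨S, hS⟩ : ∃ S, S = {a : ℝ | ∀ x y : ℝ, 0 ≤ x → 0 ≤ y → x ^ 2 + y ^ 2 ≤ 1 →
    0 ≤ κ * x ^ 2 + μ * y ^ 2 - a * x * y ^ 2} := ⟨_, rfl⟩
  have S0' : 0 ∈ S := hS ▸ fun x y _ _ _ => by simp; positivity
  have bS : BddAbove S := ⟨8 * (κ + μ), fun a h => by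
    have := (hS ▸ h) (1 / 2) (1 / 2) (by norm_num) (by norm_num) (by norm_num); linarith⟩
  have a00 : 0 ≤ a0 κ μ := by rw [a0, ← hS]; exact le_csSup bS S0'
  have mem : ∀ a, (∀ x y : ℝ, 0 < x → 0 < y → x ^ 2 + y ^ 2 ≤ 1 →
      a ≤ (κ * x ^ 2 + μ * y ^ 2) / (x * y ^ 2)) → a ∈ S := fun a h => hS ▸ fun x y x0 y0 xy => by
    rcases x0.eq_or_lt with rfl | x0
    · simp; positivity
    rcases y0.eq_or_lt with rfl | y0
    · simp; positivity
    linarith [(le_div_iff₀ (by positivity)).1 (h x y x0 y0 xy)]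
  constructor
  · obtain ⟨h, v, hh, ch, hv⟩ := extr (hA i) he' (b.inner_eq_zero ij.symm) a00 (σ := 2 * μ - κ)
      (by rw [hk, hm]) σ0.ne' (fun z z0 => (mul_pos μ0 (pow_pos (norm_pos_iff.2 z0) 2)).trans_le (hμ z))
      (ha (hS.subset <| mem _ fun x y x0 y0 xy => by
        rw [a0, ← hS]
        refine csSup_le ⟨0, S0'⟩ fun a h => (le_div_iff₀ (by positivity)).2 ?_
        linarith [(hS ▸ h) x y x0.le y0.le xy]))
    have sh := shear (b i) (b j) (a0 κ μ / (2 * μ - κ) * (1 - Real.exp (-((2 * μ - κ) * T))) : ℝ)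
      (b.orthonormal.1 j) (ContinuousLinearMap.id ℂ _)
    have di : Differentiable ℂ fun z => inner ℂ (b j) z := (innerSL ℂ (b j)).differentiable
    refine ⟨fun z => z + ((a0 κ μ / (2 * μ - κ) * (1 - Real.exp (-((2 * μ - κ) * T))) : ℝ) *
      inner ℂ (b j) z ^ 2) • b i, ⟨by fun_prop, by simp, sh.1, h, v,
        fun t _ => ⟨(hh t).1.differentiableOn, (hh t).2⟩, fun z _ => (ch z).aestronglyMeasurable,
        fun z hz => ⟨(hv z hz).2.1, fun t ht => (hv z hz).2.2.1 t ht.1,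
          (hv z hz).1.contDiffOn.exists_lipschitzOnWith (by decide) (convex_Icc _ _) isCompact_Icc,
          .of_forall fun t _ => (hv z hz).2.2.2.1 t, .trans ?_ ((hv z hz).2.2.2.2 T).symm⟩⟩,
      b j, b.orthonormal.1 j, ?_⟩
    · rw [neg_mul, div_mul_eq_mul_div]
    · rw [P, sh.2, norm_smul, b.orthonormal.1, mul_one, norm_real, Real.norm_of_nonneg (by positivity)]
  rintro _ ⟨f, ⟨fd, f0, fD, h, v, hh, -, hv⟩, u, hu, rfl⟩
  rw [← div_le_iff₀ θ0, le_div_iff₀ σ0, a0, ← hS]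
  refine le_csSup bS (mem _ fun x y x0 y0 xy => ?_)
  have σ1 : μ * 2 - κ ≠ 0 := by linarith
  obtain ⟨R, hR⟩ : ∃ R, R = √(1 + (x / y) ^ 2) := ⟨_, rfl⟩
  have R0 : 0 < R := by rw [hR]; positivity
  have R2 : R ^ 2 = 1 + (x / y) ^ 2 := by rw [hR, Real.sq_sqrt (by positivity)]
  have Ry : R * y ≤ 1 := le_of_sq_le_sq (by rw [mul_pow, R2]; field_simp; linarith) zero_le_one
  have := up fd f0 fD (B := R / (x / y) * ((μ + (x / y) ^ 2 * κ) *
    (1 - Real.exp (-((2 * μ - κ) * T))) / (2 * μ - κ))) (by positivity) (fun δ δ0 => ?_) hu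
  · refine (mul_le_mul_of_nonneg_right (div_le_div_of_nonneg_right this θ0.le) σ0.le).trans
      (le_of_eq_of_le (b := R * y * ((κ * x ^ 2 + μ * y ^ 2) / (x * y ^ 2))) ?_
      (mul_le_of_le_one_left (by positivity) Ry))
    generalize 1 - Real.exp _ = θ at θ0
    field_simp; ring
  obtain ⟨ε, ε0, H⟩ := fint b hA μ0 mk hi hj h2 (div_pos x0 y0) R0 R2 δ0 T0.le fun k =>
    mul_le_mul_of_nonneg_left (H.elim (fun e => by rw [le_antisymm ((hi k).trans e.le) (hj k)])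
      fun H => ineq μ0 h2 (by positivity) H ⟨hj k, hi k⟩) (by positivity)
  refine ⟨ε, ε0, fun z hz zε w hw => ?_⟩
  obtain ⟨v0, vb, ⟨K, hK⟩, ode, e⟩ := hv z hz
  have := H h (v z) w hw ((uIcc_of_le T0.le ▸ hK).absolutelyContinuousOnInterval) vb (by
    filter_upwards [ode] with t h2 ht
    obtain ⟨a, b, c, d⟩ := hh t ht
    refine ⟨h2 ht, a, b, c, fun z hz => ?_⟩
    rcases eq_or_ne z 0 with rfl | z0
    · simp
    · exact (d z hz z0).le) (v0.symm ▸ zε)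
  rwa [v0, U, ← e] at this

end Pool.Agent.Results.MP_c027d2_an.P2
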